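import Pool.Agent.H1.NV.D
import Pool.Agent.H1.ND.Na

set_option autoImplicit false

namespace NV1

open Complex Set Filter Topology MeasureTheory EW1 EX1 LD1
open scoped ComplexConjugate ContDiff Real

private theorem Vbd_int (k : ℕ) : ∫ s in (0 : ℝ)..(2 * π), exp ((k : ℂ) * I * (s : ℂ))
    = if k = 0 then (2 * π : ℂ) else 0 := by
  split_ifs with h
  · subst h
    simp
  · have hm : (k : ℂ) * I ≠ 0 := mul_ne_zero (Nat.cast_ne_zero.2 h) I_ne_zero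
    rw [integral_exp_mul_complex hm]
    have h2 : (k : ℂ) * I * ((2 * π : ℝ) : ℂ) = k * (2 * π * I) := by
      push_cast
      ring
    rw [h2, Complex.exp_nat_mul_two_pi_mul_I]
    simp

private theorem Vbd_pow {ρ : ℝ} (hρ : 0 < ρ) {b n : ℕ} (h : n ≤ b) :
    fc 0 1 0 (fun z => z ^ b) ρ (n + 1) = if n = b then 1 else 0 := by
  unfold fc
  have hρc : (ρ : ℂ) ≠ 0 := by exact_mod_cast hρ.ne'
  have h1 : ∀ t : ℝ, (fun z : ℂ => z ^ b) ((0 : ℂ) + ((1 : ℝ) : ℂ) * ((ρ : ℂ) * exp (t * I) +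
      0 * ((ρ : ℂ) * exp (t * I))⁻¹)) * (((1 : ℝ) : ℂ) * ((ρ : ℂ) * exp (t * I) -
      0 * ((ρ : ℂ) * exp (t * I))⁻¹)) * ((ρ : ℂ) * exp (t * I))⁻¹ ^ (n + 1) =
      (ρ : ℂ) ^ (b - n) * exp (((b - n : ℕ) : ℂ) * I * (t : ℂ)) := by
    intro t
    obtain ⟨k, rfl⟩ := Nat.exists_eq_add_of_le h
    rw [Nat.add_sub_cancel_left]
    have hw : (ρ : ℂ) * exp (t * I) ≠ 0 := mul_ne_zero hρc (Complex.exp_ne_zero _)
    have e1 : (ρ : ℂ) ^ k * exp ((k : ℂ) * I * (t : ℂ)) = ((ρ : ℂ) * exp (t * I)) ^ k := by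
      rw [mul_pow, ← Complex.exp_nat_mul]
      congr 2
      ring
    rw [e1]
    simp only [zero_mul, add_zero, sub_zero, zero_add, Complex.ofReal_one, one_mul]
    rw [inv_pow]
    field_simp
    ring
  have h2 : (∫ t in (0 : ℝ)..(2 * π), (fun z : ℂ => z ^ b) ((0 : ℂ) + ((1 : ℝ) : ℂ) * ((ρ : ℂ) * exp (t * I) +
      0 * ((ρ : ℂ) * exp (t * I))⁻¹)) * (((1 : ℝ) : ℂ) * ((ρ : ℂ) * exp (t * I) -
      0 * ((ρ : ℂ) * exp (t * I))⁻¹)) * ((ρ : ℂ) * exp (t * I))⁻¹ ^ (n + 1)) =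
      (ρ : ℂ) ^ (b - n) * (if b - n = 0 then (2 * π : ℂ) else 0) := by
    rw [intervalIntegral.integral_congr (fun t _ => h1 t), intervalIntegral.integral_const_mul, Vbd_int]
  rw [h2]
  have hpi : (2 * π : ℂ) ≠ 0 := by
    have : (π : ℂ) ≠ 0 := by exact_mod_cast Real.pi_ne_zero
    exact mul_ne_zero two_ne_zero this
  by_cases hn : n = b
  · subst hn
    rw [Nat.sub_self, if_pos rfl, if_pos rfl, pow_zero, one_mul, div_self hpi]
  · rw [if_neg (by omega), if_neg hn, mul_zero, zero_div]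

private theorem Vbd_cauchy {G : ℂ → ℂ} {ρ : NNReal} (hρ : 0 < ρ) (y : ℂ) (n : ℕ) :
    (cauchyPowerSeries G 0 (ρ : ℝ) n fun _ => y) = fc 0 1 0 G ρ (n + 1) * y ^ n := by
  have hρc : ((ρ : ℝ) : ℂ) ≠ 0 := by
    have : (ρ : ℝ) ≠ 0 := by exact_mod_cast hρ.ne'
    exact_mod_cast this
  rw [cauchyPowerSeries_apply]
  unfold circleIntegral fc
  have h5 : (fun θ : ℝ => deriv (circleMap 0 (ρ : ℝ)) θ • ((y / (circleMap 0 (ρ : ℝ) θ - 0)) ^ n •
      (circleMap 0 (ρ : ℝ) θ - 0)⁻¹ • G (circleMap 0 (ρ : ℝ) θ))) =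
      fun θ : ℝ => (I * y ^ n) * (G ((0 : ℂ) + ((1 : ℝ) : ℂ) * (((ρ : ℝ) : ℂ) * exp (θ * I) +
      0 * (((ρ : ℝ) : ℂ) * exp (θ * I))⁻¹)) * (((1 : ℝ) : ℂ) * (((ρ : ℝ) : ℂ) * exp (θ * I) -
      0 * (((ρ : ℝ) : ℂ) * exp (θ * I))⁻¹)) * (((ρ : ℝ) : ℂ) * exp (θ * I))⁻¹ ^ (n + 1)) := by
    funext θ
    have e : circleMap 0 (ρ : ℝ) θ = ((ρ : ℝ) : ℂ) * exp (θ * I) := by
      rw [circleMap, zero_add]
    have hw : ((ρ : ℝ) : ℂ) * exp (θ * I) ≠ 0 := mul_ne_zero hρc (Complex.exp_ne_zero _)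
    rw [deriv_circleMap, e]
    simp only [zero_mul, add_zero, sub_zero, zero_add, Complex.ofReal_one, one_mul, smul_eq_mul]
    obtain ⟨w, hwd⟩ : ∃ w : ℂ, w = ((ρ : ℝ) : ℂ) * exp (θ * I) := ⟨_, rfl⟩
    rw [← hwd] at hw ⊢
    rw [inv_pow, div_pow, pow_succ w n]
    field_simp
  rw [h5, intervalIntegral.integral_const_mul, smul_eq_mul]
  have hI : (2 * π * I : ℂ) ≠ 0 := two_pi_I_ne_zero
  have hπ : (π : ℂ) ≠ 0 := by exact_mod_cast Real.pi_ne_zero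
  field_simp

/-- the Taylor expansion, with the coefficients `fc` -/
private theorem Vbd_sum {ρ R : NNReal} (hρ : 0 < ρ) (hR : 0 < R) (hρR : ρ ≤ R) {G : ℂ → ℂ}
    (hG : DifferentiableOn ℂ G (Metric.closedBall 0 (R : ℝ))) {y : ℂ} (hy : ‖y‖ < R) :
    HasSum (fun n : ℕ => fc 0 1 0 G ρ (n + 1) * y ^ n) (G y) := by
  have h1 := hG.hasFPowerSeriesOnBall hR
  have h2 := (hG.mono (Metric.closedBall_subset_closedBall (by exact_mod_cast hρR))).hasFPowerSeriesOnBall hρ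
  have h3 : cauchyPowerSeries G 0 (R : ℝ) = cauchyPowerSeries G 0 (ρ : ℝ) :=
    h1.hasFPowerSeriesAt.eq_formalMultilinearSeries h2.hasFPowerSeriesAt
  have h4 := h1.hasSum (y := y) (by
    rw [Metric.mem_eball, edist_zero_right, enorm_eq_nnnorm]
    rw [ENNReal.coe_lt_coe, ← NNReal.coe_lt_coe]
    exact hy)
  rw [zero_add, h3] at h4
  have h5 : (fun n : ℕ => cauchyPowerSeries G 0 (ρ : ℝ) n fun _ => y) =
      fun n : ℕ => fc 0 1 0 G ρ (n + 1) * y ^ n := funext fun n => Vbd_cauchy hρ y n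
  rw [h5] at h4
  exact h4

theorem Vb_disk {ρ : ℝ} (hρ : 0 < ρ) (hρ1 : ρ < 1) {N : Set ℂ} (hN : IsOpen N) (hK : Kp 0 1 0 ⊆ N) {F m : ℂ → ℂ}
    (hF : DifferentiableOn ℂ F N) (hm : DifferentiableOn ℂ m N) :
    ∫ z in Dp 0 1 0 1, conj (m z) * F z =
      π * ∑' n : ℕ, ((1 - ‖(0 : ℂ)‖ ^ (2 * (n + 1)) : ℝ) : ℂ) * fc 0 1 0 F ρ (n + 1) * conj (fc 0 1 0 m ρ (n + 1)) / ((n : ℂ) + 1) := by
  have hK' : Metric.closedBall (0 : ℂ) 1 ⊆ N := by
    rw [← Kp_disk 0 one_pos]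
    exact hK
  obtain ⟨δ, hδ, hsub⟩ := (isCompact_closedBall (0 : ℂ) 1).exists_cthickening_subset_open hN hK'
  have hball : Metric.closedBall (0 : ℂ) (1 + δ) ⊆ N := by
    refine Subset.trans ?_ hsub
    rw [cthickening_closedBall hδ.le zero_le_one, add_comm]
  have hR0 : 0 ≤ 1 + δ := by linarith
  -- expansion of m
  have hexp : ∀ y : ℂ, ‖y‖ < 1 + δ → HasSum (fun n : ℕ => fc 0 1 0 m ρ (n + 1) * y ^ n) (m y) := by
    intro y hy
    obtain ⟨ρ', hρ'⟩ : ∃ r : NNReal, (r : ℝ) = ρ := ⟨⟨ρ, hρ.le⟩, rfl⟩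
    obtain ⟨R', hR'⟩ : ∃ r : NNReal, (r : ℝ) = 1 + δ := ⟨⟨1 + δ, hR0⟩, rfl⟩
    have h0 := Vbd_sum (ρ := ρ') (R := R')
      (by
        rw [← NNReal.coe_pos, hρ']
        exact hρ)
      (by
        rw [← NNReal.coe_pos, hR']
        linarith)
      (by
        rw [← NNReal.coe_le_coe, hρ', hR']
        linarith)
      (G := m) (by
        rw [hR']
        exact hm.mono hball) (y := y) (by
        rw [hR']
        exact hy)
    rw [hρ'] at h0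
    exact h0
  have hsum : Summable fun n : ℕ => ‖fc 0 1 0 m ρ (n + 1)‖ := by
    have h1 := (hexp 1 (by rw [norm_one]; linarith)).summable
    have h2 := h1.norm
    simpa using h2
  -- bound for F
  obtain ⟨M, hM⟩ := (isCompact_closedBall (0 : ℂ) 1).exists_bound_of_continuousOn (hF.continuousOn.mono hK')
  have hM0 : 0 ≤ M := (norm_nonneg _).trans (hM 0 (by simp))
  rw [Dp_disk 0 one_pos]
  have hint : ∀ b : ℕ, Integrable (fun z : ℂ => conj (fc 0 1 0 m ρ (b + 1)) * (F z * conj z ^ b))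
      (volume.restrict (Metric.ball (0 : ℂ) 1)) := by
    intro b
    have h1 : ContinuousOn (fun z : ℂ => conj (fc 0 1 0 m ρ (b + 1)) * (F z * conj z ^ b)) (Metric.closedBall (0 : ℂ) 1) :=
      continuousOn_const.mul ((hF.continuousOn.mono hK').mul (Complex.continuous_conj.pow b).continuousOn)
    exact (h1.integrableOn_compact (isCompact_closedBall 0 1)).mono_set Metric.ball_subset_closedBall
  have hbd : ∀ b : ℕ, ∀ z ∈ Metric.ball (0 : ℂ) 1,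
      ‖conj (fc 0 1 0 m ρ (b + 1)) * (F z * conj z ^ b)‖ ≤ ‖fc 0 1 0 m ρ (b + 1)‖ * M := by
    intro b z hz
    rw [norm_mul, Complex.norm_conj, norm_mul, norm_pow, Complex.norm_conj]
    have hz1 : ‖z‖ ≤ 1 := (mem_ball_zero_iff.1 hz).le
    have h1 := hM z (Metric.ball_subset_closedBall hz)
    have h2 : ‖z‖ ^ b ≤ 1 := pow_le_one₀ (norm_nonneg _) hz1
    have h3 : ‖F z‖ * ‖z‖ ^ b ≤ M * 1 := mul_le_mul h1 h2 (by positivity) hM0
    rw [mul_one] at h3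
    exact mul_le_mul_of_nonneg_left h3 (norm_nonneg _)
  have hsi : Summable fun b : ℕ => ∫ z in Metric.ball (0 : ℂ) 1, ‖conj (fc 0 1 0 m ρ (b + 1)) * (F z * conj z ^ b)‖ := by
    refine Summable.of_nonneg_of_le (fun b => integral_nonneg fun z => norm_nonneg _) (fun b => ?_)
      ((hsum.mul_right M).mul_right (volume.real (Metric.ball (0 : ℂ) 1)))
    have h1 : ‖∫ z in Metric.ball (0 : ℂ) 1, ‖conj (fc 0 1 0 m ρ (b + 1)) * (F z * conj z ^ b)‖‖ ≤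
        ‖fc 0 1 0 m ρ (b + 1)‖ * M * volume.real (Metric.ball (0 : ℂ) 1) := by
      refine norm_setIntegral_le_of_norm_le_const Metric.isBounded_ball.measure_lt_top fun z hz => ?_
      rw [norm_norm]
      exact hbd b z hz
    exact (Real.le_norm_self _).trans h1
  have hmain := hasSum_integral_of_summable_integral_norm hint hsi
  have e1 : ∫ z in Metric.ball (0 : ℂ) 1, (∑' b : ℕ, conj (fc 0 1 0 m ρ (b + 1)) * (F z * conj z ^ b)) =
      ∫ z in Metric.ball (0 : ℂ) 1, conj (m z) * F z := by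
    refine setIntegral_congr_fun measurableSet_ball fun z hz => ?_
    have hz1 : ‖z‖ < 1 := mem_ball_zero_iff.1 hz
    have h1 := hexp z (by linarith)
    have h2 : HasSum (fun b : ℕ => conj (fc 0 1 0 m ρ (b + 1) * z ^ b) * F z) (conj (m z) * F z) :=
      ((Complex.hasSum_conj' ).2 h1).mul_right (F z)
    have h3 : (fun b : ℕ => conj (fc 0 1 0 m ρ (b + 1)) * (F z * conj z ^ b)) =
        fun b : ℕ => conj (fc 0 1 0 m ρ (b + 1) * z ^ b) * F z := by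
      funext b
      rw [map_mul, map_pow]
      ring
    show ∑' b : ℕ, conj (fc 0 1 0 m ρ (b + 1)) * (F z * conj z ^ b) = conj (m z) * F z
    rw [h3]
    exact h2.tsum_eq
  rw [e1] at hmain
  have e2 : ∀ b : ℕ, ∫ z in Metric.ball (0 : ℂ) 1, conj (fc 0 1 0 m ρ (b + 1)) * (F z * conj z ^ b) =
      π * (((1 - ‖(0 : ℂ)‖ ^ (2 * (b + 1)) : ℝ) : ℂ) * fc 0 1 0 F ρ (b + 1) * conj (fc 0 1 0 m ρ (b + 1)) / ((b : ℂ) + 1)) := by
    intro b
    rw [integral_const_mul]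
    have h1 := ND1.PM (c := 0) (r := 1) one_pos (μ := 0) hρ (by rw [norm_zero]; positivity) hρ1 hN hK hF b
    rw [Dp_disk 0 one_pos] at h1
    rw [h1, Finset.sum_eq_single_of_mem b (Finset.mem_range.2 (by omega))]
    · rw [Vbd_pow hρ le_rfl, if_pos rfl, map_one]
      ring
    · intro n hn hnb
      rw [Finset.mem_range] at hn
      rw [Vbd_pow hρ (by omega), if_neg hnb, map_zero, mul_zero]
  have e3 : (fun b : ℕ => ∫ z in Metric.ball (0 : ℂ) 1, conj (fc 0 1 0 m ρ (b + 1)) * (F z * conj z ^ b)) =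
      fun b : ℕ => π * (((1 - ‖(0 : ℂ)‖ ^ (2 * (b + 1)) : ℝ) : ℂ) * fc 0 1 0 F ρ (b + 1) * conj (fc 0 1 0 m ρ (b + 1)) / ((b : ℂ) + 1)) :=
    funext e2
  rw [e3] at hmain
  rw [← hmain.tsum_eq, tsum_mul_left]

end NV1
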